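import Pool.Agent.H74.TF.Stm

/-!
# Project TF, part CLS: the type of the list of centres determines the double coset
-/

set_option autoImplicit false
set_option linter.all false

namespace Pool.Agent.H57.TF

open Finset Equiv Pool.Agent.H74.TF

/-! ## products along a stable sort -/

theorem prod_orderedInsert {γ G : Type} [Monoid G] (r : γ → γ → Prop) [DecidableRel r]
    (F : γ → G) (a : γ) : ∀ L : List γ, (∀ q ∈ L, ¬ r a q → Commute (F a) (F q)) →
      ((L.orderedInsert r a).map F).prod = F a * (L.map F).prod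
  | [], _ => by simp
  | b :: L, h => by
    by_cases hr : r a b
    · rw [List.orderedInsert_cons_of_le _ _ hr]
      simp
    · rw [List.orderedInsert_of_not_le _ _ hr, List.map_cons, List.prod_cons,
        prod_orderedInsert r F a L (fun q hq => h q (List.mem_cons_of_mem _ hq)),
        List.map_cons, List.prod_cons, ← mul_assoc, ← mul_assoc,
        (h b List.mem_cons_self hr).eq]

theorem prod_insertionSort {γ G : Type} [Monoid G] (r : γ → γ → Prop) [DecidableRel r]
    (F : γ → G) : ∀ L : List γ, (∀ p ∈ L, ∀ q ∈ L, ¬ r p q → Commute (F p) (F q)) →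
      ((L.insertionSort r).map F).prod = (L.map F).prod
  | [], _ => by simp
  | a :: L, h => by
    rw [List.insertionSort_cons, prod_orderedInsert r F a, List.map_cons, List.prod_cons,
      prod_insertionSort r F L
        (fun p hp q hq => h p (List.mem_cons_of_mem _ hp) q (List.mem_cons_of_mem _ hq))]
    intro q hq hr
    rw [List.mem_insertionSort] at hq
    exact h a List.mem_cons_self q (List.mem_cons_of_mem _ hq) hr

/-! ## extension of partial permutations -/

theorem exists_perm_map {α : Type} [Finite α] (u v : List α) (hu : u.Nodup) (hv : v.Nodup)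
    (h : u.length = v.length) : ∃ ρ : Perm α, u.map ρ = v := by
  obtain ⟨σ, hσ⟩ := Equiv.Perm.exists_extending_pair (fun i : Fin u.length => u.get i)
    (fun i : Fin u.length => v.get (Fin.cast h i)) (List.nodup_iff_injective_get.mp hu)
    (fun i j hij => by
      have := List.nodup_iff_injective_get.mp hv hij
      simpa using this)
  refine ⟨σ, List.ext_getElem (by simpa using h) fun i h1 h2 => ?_⟩
  have := hσ ⟨i, by simpa using h1⟩
  simpa using this

/-- a permutation of the pairs with prescribed values -/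
theorem exists_pair_perm {m : ℕ} (ys ys' : List (Fin m × Bool)) (P : Finset (Fin m))
    (π : Perm (Fin m)) (h1 : (ys.map Prod.fst).Nodup) (h2 : (ys'.map Prod.fst).Nodup)
    (hl : ys.length = ys'.length) (h3 : ∀ y ∈ ys, y.1 ∉ P)
    (h4 : ∀ y ∈ ys', ∀ i ∈ P, y.1 ≠ π i) :
    ∃ a : Perm (Fin m × Bool), wr a ∧ ys.map a = ys' ∧ ∀ i ∈ P, a (i, false) = (π i, false) := by
  classical
  obtain ⟨ρ, hρ⟩ := exists_perm_map (ys.map Prod.fst ++ P.toList)
    (ys'.map Prod.fst ++ P.toList.map π)
    (by
      rw [List.nodup_append]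
      refine ⟨h1, P.nodup_toList, ?_⟩
      intro i hi j hj hij
      subst hij
      obtain ⟨y, hy, rfl⟩ := List.mem_map.mp hi
      exact h3 y hy (Finset.mem_toList.mp hj))
    (by
      rw [List.nodup_append]
      refine ⟨h2, P.nodup_toList.map π.injective, ?_⟩
      intro i hi j hj hij
      subst hij
      obtain ⟨y, hy, e⟩ := List.mem_map.mp hi
      obtain ⟨i', hi', e'⟩ := List.mem_map.mp hj
      exact h4 y hy i' (Finset.mem_toList.mp hi') (e.trans e'.symm))
    (by simp [hl])
  rw [List.map_append] at hρ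
  obtain ⟨hρ1, hρ2⟩ := List.append_inj hρ (by simp [hl])
  have hρP : ∀ i ∈ P, ρ i = π i := by
    intro i hi
    exact (List.map_inj_left.mp hρ2) i (Finset.mem_toList.mpr hi)
  rw [List.map_map] at hρ1
  -- the flips
  have hinj : Function.Injective (fun j : Fin ys.length => (ys.get j).1) := by
    intro i j hij
    have h5 := List.nodup_iff_injective_get.mp h1
    have h6 : (⟨i, by simp⟩ : Fin (ys.map Prod.fst).length) = ⟨j, by simp⟩ := by
      apply h5
      simpa using hij
    exact Fin.ext (by simpa using congrArg Fin.val h6)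
  let ε : Fin m → Bool := Function.extend (fun j : Fin ys.length => (ys.get j).1)
    (fun j => xor (ys.get j).2 (ys'.get (Fin.cast hl j)).2) (fun _ => false)
  have hε1 : ∀ j : Fin ys.length, ε (ys.get j).1 = xor (ys.get j).2 (ys'.get (Fin.cast hl j)).2 :=
    fun j => hinj.extend_apply _ _ j
  have hε2 : ∀ i ∈ P, ε i = false := by
    intro i hi
    apply Function.extend_apply'
    rintro ⟨j, hj⟩
    exact h3 (ys.get j) (List.get_mem _ _) (by rw [hj]; exact hi)
  let a : Perm (Fin m × Bool) :=
    Equiv.prodShear ρ (fun i => if ε i then Equiv.boolNot else Equiv.refl _)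
  have ha : ∀ x : Fin m × Bool, a x = (ρ x.1, xor (ε x.1) x.2) := by
    intro x
    show (ρ x.1, (if ε x.1 then Equiv.boolNot else Equiv.refl _) x.2) = _
    cases ε x.1 <;> simp
  refine ⟨a, ?_, ?_, ?_⟩
  · intro i
    rw [ha, ha]
  · refine List.ext_getElem (by simpa using hl) fun j k1 k2 => ?_
    rw [List.getElem_map, ha]
    have hj : j < ys.length := by simpa using k1
    have e1 := hε1 ⟨j, hj⟩
    have e2 : ρ (ys[j]).1 = (ys'[j]).1 := by
      have e3 : (ys.map (ρ ∘ Prod.fst))[j]'(by simpa using hj)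
          = (ys'.map Prod.fst)[j]'(by simpa using k2) := by
        simp only [hρ1]
      simpa using e3
    apply Prod.ext
    · exact e2
    · show xor (ε (ys[j]).1) (ys[j]).2 = (ys'[j]).2
      have e4 : ε (ys[j]).1 = xor (ys[j]).2 (ys'[j]).2 := e1
      rw [e4]
      cases (ys[j]).2 <;> cases (ys'[j]).2 <;> rfl
  · intro i hi
    rw [ha]
    simp [hε2 i hi, hρP i hi]

/-! ## the order of the centres -/

theorem ctr_inj {m k : ℕ} : Function.Injective (ctr : Fin m ⊕ Fin k → Pt m k) := by
  rintro (i | i) (j | j) h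
  · simp only [ctr, Sum.inl.injEq, Prod.mk.injEq] at h
    rw [h.1]
  · simp [ctr] at h
  · simp [ctr] at h
  · simpa [ctr] using h

theorem rk_inj {m k : ℕ} : Function.Injective (rk : Pt m k → ℕ) := by
  rintro (⟨i, b⟩ | i) (⟨j, b'⟩ | j) h
  · simp only [rk] at h
    have : (i : ℕ) = j ∧ b = b' := by
      cases b <;> cases b' <;> simp at h ⊢ <;> omega
    rw [Fin.ext this.1, this.2]
  · simp only [rk] at h
    have := i.2
    cases b <;> simp at h <;> omega
  · simp only [rk] at h
    have := j.2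
    cases b' <;> simp at h <;> omega
  · simp only [rk] at h
    rw [Fin.ext (show (i : ℕ) = j by omega)]

theorem zipWith_eq_map_zip {α β γ : Type} (f : α → β → γ) :
    ∀ (l : List α) (l' : List β), List.zipWith f l l' = (List.zip l l').map fun p => f p.1 p.2
  | [], _ => by simp
  | _ :: _, [] => by simp
  | a :: l, b :: l' => by simp [zipWith_eq_map_zip f l l']

theorem zip_map_snd {α β γ : Type} (f : β → γ) :
    ∀ (l : List α) (l' : List β),
      List.zip l (l'.map f) = (List.zip l l').map fun p => (p.1, f p.2)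
  | [], _ => by simp
  | _ :: _, [] => by simp
  | a :: l, b :: l' => by simp [zip_map_snd f l l']

theorem zip_map_fst' {α β γ : Type} (f : α → γ) :
    ∀ (l : List α) (l' : List β),
      List.zip (l.map f) l' = (List.zip l l').map fun p => (f p.1, p.2)
  | [], _ => by simp
  | _ :: _, [] => by simp
  | a :: l, b :: l' => by simp [zip_map_fst' f l l']

/-- **CLS** -/
theorem t_CLS (hV : C_V0) (hG : C_GENW) : C_CLS := by
  intro R _ m k cs cs' g g' π π' hs hs' hw hw' hv hv' hp
  classical
  obtain ⟨ys, hl, hnd, hdis, a1, b1, ha1, hg⟩ := hG R m k cs g hv hw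
  obtain ⟨ys', hl', hnd', hdis', a2, b2, ha2, hg'⟩ := hG R m k cs' g' hv' hw'
  obtain ⟨σ, hσ⟩ : ∃ σ : Fin m ⊕ Fin k → Fin m ⊕ Fin k, σ = Sum.map π π' := ⟨_, rfl⟩
  obtain ⟨τ, hτ⟩ : ∃ τ : Fin m ⊕ Fin k → Fin m ⊕ Fin k, τ = Sum.map π.symm π'.symm := ⟨_, rfl⟩
  have hτσ : ∀ c, τ (σ c) = c := by
    rintro (c | c) <;> simp [hσ, hτ]
  rw [← hσ] at hp
  let r : (Fin m × Bool) × (Fin m ⊕ Fin k) → (Fin m × Bool) × (Fin m ⊕ Fin k) → Prop :=
    fun p q => rk (ctr q.2) ≤ rk (ctr p.2)
  haveI : Std.Total r := ⟨fun p q => le_total (rk (ctr q.2)) (rk (ctr p.2))⟩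
  haveI : IsTrans _ r := ⟨fun p q w h1 h2 => le_trans h2 h1⟩
  obtain ⟨L, hL⟩ : ∃ L, L = List.zip ys (cs.map σ) := ⟨_, rfl⟩
  obtain ⟨s, hsL⟩ : ∃ s, s = L.insertionSort r := ⟨_, rfl⟩
  have hsperm : s.Perm L := hsL ▸ List.perm_insertionSort r L
  have hsnd : s.map Prod.snd = cs' := by
    have e1 : L.map Prod.snd = cs.map σ := by
      rw [hL, List.map_snd_zip (by simp [hl])]
    have e2 : (s.map Prod.snd).Perm cs' := (hsperm.map _).trans (e1 ▸ hp.symm)
    refine List.Perm.eq_of_pairwise
      (le := fun c c' : Fin m ⊕ Fin k => rk (ctr c') ≤ rk (ctr c)) ?_ ?_ hs' e2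
    · intro a b _ _ h1 h2
      exact ctr_inj (rk_inj (le_antisymm h2 h1))
    · rw [List.pairwise_map, hsL]
      exact List.pairwise_insertionSort r L
  have hfst : (s.map Prod.fst).Perm ys := by
    have e1 : L.map Prod.fst = ys := by
      rw [hL, List.map_fst_zip (by simp [hl])]
    exact e1 ▸ hsperm.map _
  -- the product over `L`
  obtain ⟨F, hF⟩ : ∃ F : (Fin m × Bool) × (Fin m ⊕ Fin k) → Perm (Pt m k),
    F = fun p => swap (Sum.inl p.1) (ctr (τ p.2)) := ⟨_, rfl⟩
  have hW1 : (List.zipWith (fun y c => swap (Sum.inl y) (ctr c)) ys cs).prod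
      = (L.map F).prod := by
    rw [zipWith_eq_map_zip, hL, zip_map_snd, List.map_map]
    congr 1
    apply List.map_congr_left
    intro p _
    simp [hF, hτσ]
  have hmem : ∀ p ∈ L, p.1 ∈ ys ∧ τ p.2 ∈ cs := by
    intro p hp
    rw [hL] at hp
    have h1 := List.of_mem_zip hp
    refine ⟨h1.1, ?_⟩
    obtain ⟨c, hc, e⟩ := List.mem_map.mp h1.2
    rw [← e, hτσ]
    exact hc
  have hne1 : ∀ y ∈ ys, ∀ c ∈ cs, (Sum.inl y : Pt m k) ≠ ctr c := by
    intro y hy c hc he
    rcases c with i | i
    · simp only [ctr, Sum.inl.injEq] at he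
      apply hdis y hy
      rw [he]
      simp only [pc, Finset.mem_filter, Finset.mem_univ, true_and]
      exact hc
    · simp [ctr] at he
  have hLnd : (L.map fun p => p.1.1).Nodup := by
    have e1 : L.map Prod.fst = ys := by
      rw [hL, List.map_fst_zip (by simp [hl])]
    have : (L.map fun p => p.1.1) = ys.map Prod.fst := by
      rw [← e1, List.map_map]; rfl
    rw [this]; exact hnd
  have hW2 : (s.map F).prod = (L.map F).prod := by
    rw [hsL]
    apply prod_insertionSort
    intro p hp q hq hr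
    have hc : p.2 ≠ q.2 := by
      intro h
      apply hr
      show rk (ctr q.2) ≤ rk (ctr p.2)
      rw [h]
    have hpq : p ≠ q := fun h => hc (by rw [h])
    have hy : p.1.1 ≠ q.1.1 := fun h => hpq (List.inj_on_of_nodup_map hLnd hp hq h)
    obtain ⟨p1, p2⟩ := hmem p hp
    obtain ⟨q1, q2⟩ := hmem q hq
    have hτinj : Function.Injective τ := by
      rw [hτ]
      exact Function.Injective.sumMap π.symm.injective π'.symm.injective
    rw [hF]
    apply Equiv.Perm.Disjoint.commute
    apply Equiv.Perm.disjoint_swap_swap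
    simp only [List.nodup_cons, List.mem_cons, List.not_mem_nil, or_false, not_or,
      List.nodup_nil, and_true, not_false_eq_true]
    refine ⟨⟨hne1 _ p1 _ p2, fun h => hy (by rw [Sum.inl.inj h]), hne1 _ p1 _ q2⟩,
      ⟨fun h => hne1 _ q1 _ p2 h.symm, fun h => hc (hτinj (ctr_inj h))⟩, hne1 _ q1 _ q2⟩
  -- the permutation of the pairs
  have hsnd' : ((s.map Prod.fst).map Prod.fst).Nodup :=
    ((hfst.map Prod.fst).nodup_iff).mpr hnd
  have hslen : s.length = cs'.length := by rw [← hsnd, List.length_map]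
  obtain ⟨a, hwa, hay, haP⟩ := exists_pair_perm (s.map Prod.fst) ys' (pc cs) π hsnd' hnd'
    (by rw [List.length_map, hslen, hl'])
    (fun y hy => hdis y (hfst.mem_iff.mp hy))
    (by
      intro y hy i hi he
      apply hdis' y hy
      simp only [pc, Finset.mem_filter, Finset.mem_univ, true_and] at hi ⊢
      rw [he]
      have : (Sum.inl (π i) : Fin m ⊕ Fin k) ∈ cs.map σ :=
        List.mem_map.mpr ⟨_, hi, by simp [hσ]⟩
      exact hp.mem_iff.mpr this)
  obtain ⟨h, hh⟩ : ∃ h : Perm (Pt m k), h = iot a π' := ⟨_, rfl⟩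
  have hctr : ∀ c ∈ cs, h (ctr c) = ctr (σ c) := by
    rintro (i | i) hc
    · have : i ∈ pc cs := by
        simp only [pc, Finset.mem_filter, Finset.mem_univ, true_and]; exact hc
      simp [hh, hσ, ctr, haP i this]
    · simp [hh, hσ, ctr]
  have hinl : ∀ y : Fin m × Bool, h (Sum.inl y) = Sum.inl (a y) := by
    intro y; simp [hh]
  have hστ : ∀ c, σ (τ c) = c := by
    rintro (c | c) <;> simp [hσ, hτ]
  have hconj : h * (s.map F).prod * h⁻¹ =
      (List.zipWith (fun y c => swap (Sum.inl y) (ctr c)) ys' cs').prod := by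
    rw [← MulAut.conj_apply, map_list_prod, List.map_map, zipWith_eq_map_zip]
    congr 1
    have e1 : List.zip ys' cs' = s.map fun p => (a p.1, p.2) := by
      conv_lhs => rw [← hay, ← hsnd, zip_map_fst']
      have e2 : List.zip (s.map Prod.fst) (s.map Prod.snd) = s := by
        rw [List.zip_map']
        simp
      rw [e2]
    rw [e1, List.map_map]
    apply List.map_congr_left
    intro p hp
    have hp' := hmem p (hsperm.mem_iff.mp hp)
    simp only [Function.comp, hF, MulAut.conj_apply]
    rw [← Equiv.swap_apply_apply, hinl, hctr _ hp'.2, hστ]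
  -- conclusion
  have hcomm : ∀ x : Perm (Pt m k), (∃ a b, wr a ∧ x = iot a b) → Commute x (dl m k) :=
    fun x hx => (hV.2.1 m k x).mp hx
  have c1 := hcomm _ ⟨a1, b1, ha1, rfl⟩
  have c2 := hcomm _ ⟨a2, b2, ha2, rfl⟩
  have c3 := hcomm h ⟨a, π', hwa, hh⟩
  have c4 : Commute ((iot a1 b1)⁻¹ * h⁻¹ * iot a2 b2 : Perm (Pt m k)) (dl m k) :=
    ((c1.inv_left).mul_left c3.inv_left).mul_left c2
  obtain ⟨a', b', hwa', e'⟩ := (hV.2.1 m k _).mpr c4
  refine ⟨a, π', a', b', hwa, hwa', ?_⟩
  rw [← e', ← hh, hg', hg, hW1, ← hconj, hW2]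
  group

end Pool.Agent.H57.TF
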