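import Pool.Agent.H74.TF.Stm

/-!
# Project TF, part YD: the filling of a Young diagram
-/

set_option autoImplicit false
set_option linter.all false

namespace Pool.Agent.H57.TF

open Finset Equiv Pool.Agent.H74.TF

theorem row_pos {lam : YoungDiagram} {i : ℕ} : i < lam.colLen 0 ↔ 0 < lam.rowLen i := by
  rw [← YoungDiagram.mem_iff_lt_colLen, YoungDiagram.mem_iff_lt_rowLen]

theorem card_cells (lam : YoungDiagram) :
    lam.card = ∑ i ∈ range (lam.colLen 0), lam.rowLen i := by
  have h : ∀ x ∈ lam.cells, x.1 ∈ range (lam.colLen 0) := by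
    intro x hx
    rw [mem_range, row_pos]
    have := YoungDiagram.mem_iff_lt_rowLen.mp
      ((YoungDiagram.mem_cells (μ := lam) (x.1, x.2)).mp hx)
    omega
  show lam.cells.card = _
  rw [Finset.card_eq_sum_card_fiberwise h]
  apply Finset.sum_congr rfl
  intro i _
  rw [YoungDiagram.rowLen_eq_card]
  rfl

theorem lab_count {ι : Type} [Fintype ι] (F : Type) [Field F] (p : ℕ) [NeZero p] [CharP F p]
    (c : ι → ℤ) :
    lab F p (fun r => #{i : ι | ((c i : ℤ) : ZMod p) = r}) =
      ∏ i : ι, (1 + Polynomial.C ((c i : ℤ) : F) * Polynomial.X) := by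
  unfold lab
  rw [← Finset.prod_fiberwise (s := univ) (g := fun i => ((c i : ℤ) : ZMod p))]
  apply Finset.prod_congr rfl
  intro r _
  rw [← Finset.prod_const]
  apply Finset.prod_congr rfl
  intro i hi
  rw [← (mem_filter.mp hi).2, ZMod.cast_intCast']

theorem card_filter_sum {A B : Type} [Fintype A] [Fintype B] (P : A ⊕ B → Prop)
    [DecidablePred P] :
    #{z : A ⊕ B | P z} = #{x : A | P (Sum.inl x)} + #{y : B | P (Sum.inr y)} := by
  simp only [Finset.card_filter, Fintype.sum_sum_type]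

/-- the dominoes of a diagram -/
def DD (lam : YoungDiagram) : Finset (ℕ ×ₗ ℕ) :=
  ((range (lam.colLen 0)).sigma (fun i => range (lam.rowLen i / 2))).image
    (fun x => toLex (x.1, x.2))

theorem mem_DD {lam : YoungDiagram} {r j : ℕ} : toLex (r, j) ∈ DD lam ↔ j < lam.rowLen r / 2 := by
  unfold DD
  rw [Finset.mem_image]
  constructor
  · rintro ⟨⟨a, b⟩, h, e⟩
    rw [Finset.mem_sigma, mem_range, mem_range] at h
    have e' : (a, b) = (r, j) := toLex_inj.mp e
    rw [Prod.mk.injEq] at e'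
    obtain ⟨rfl, rfl⟩ := e'
    exact h.2
  · intro h
    refine ⟨⟨r, j⟩, ?_, rfl⟩
    rw [Finset.mem_sigma, mem_range, mem_range]
    refine ⟨row_pos.mpr ?_, h⟩
    show 0 < lam.rowLen r
    omega

theorem card_DD (lam : YoungDiagram) :
    (DD lam).card = ∑ i ∈ range (lam.colLen 0), lam.rowLen i / 2 := by
  unfold DD
  rw [Finset.card_image_of_injective, Finset.card_sigma]
  · simp
  · rintro ⟨a, b⟩ ⟨c, d⟩ h
    have e' : (a, b) = (c, d) := toLex_inj.mp h
    rw [Prod.mk.injEq] at e'
    obtain ⟨rfl, rfl⟩ := e'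
    rfl

/-- the odd rows -/
def QQ (lam : YoungDiagram) : Finset ℕ := {i ∈ range (lam.colLen 0) | Odd (lam.rowLen i)}

theorem mem_QQ {lam : YoungDiagram} {i : ℕ} : i ∈ QQ lam ↔ Odd (lam.rowLen i) := by
  unfold QQ
  rw [mem_filter, mem_range, row_pos]
  exact ⟨fun h => h.2, fun h => ⟨h.pos, h⟩⟩

theorem card_QQ (lam : YoungDiagram) :
    (QQ lam).card = ∑ i ∈ range (lam.colLen 0), lam.rowLen i % 2 := by
  unfold QQ
  rw [Finset.card_filter]
  apply Finset.sum_congr rfl
  intro i _
  split_ifs with h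
  · exact (Nat.odd_iff.mp h).symm
  · rw [Nat.not_odd_iff_even] at h
    exact (Nat.even_iff.mp h).symm

theorem card_eq (lam : YoungDiagram) : lam.card = 2 * (DD lam).card + (QQ lam).card := by
  rw [card_cells, card_DD, card_QQ, Finset.mul_sum, ← Finset.sum_add_distrib]
  apply Finset.sum_congr rfl
  intro i _
  omega

/-- the filling -/
noncomputable def fil (lam : YoungDiagram) {m k : ℕ} (hD : (DD lam).card = m)
    (hQ : (QQ lam).card = k) : Fil m k where
  ν r := lam.rowLen r / 2
  row i := (ofLex ((DD lam).orderEmbOfFin hD i)).1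
  dom i := (ofLex ((DD lam).orderEmbOfFin hD i)).2
  qrow := (QQ lam).orderEmbOfFin hQ
  lex i i' := by
    rw [← ((DD lam).orderEmbOfFin hD).lt_iff_lt, Prod.Lex.lt_iff]
  full r j := by
    rw [← mem_DD, ← Finset.mem_coe, ← Finset.range_orderEmbOfFin (DD lam) hD, Set.mem_range]
    constructor
    · rintro ⟨i, h1, h2⟩
      refine ⟨i, ?_⟩
      apply ofLex_inj.mp
      exact Prod.ext h1 h2
    · rintro ⟨i, h⟩
      refine ⟨i, ?_, ?_⟩ <;> rw [h] <;> rfl
  qmono := ((QQ lam).orderEmbOfFin hQ).strictMono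
  anti r := by
    have key : ∀ r, (∃ s, (QQ lam).orderEmbOfFin hQ s = r) ↔ Odd (lam.rowLen r) := by
      intro r
      rw [← mem_QQ, ← Finset.mem_coe, ← Finset.range_orderEmbOfFin (QQ lam) hQ, Set.mem_range]
    have key2 : ∀ r, 2 * (lam.rowLen r / 2) +
        (if ∃ s, (QQ lam).orderEmbOfFin hQ s = r then 1 else 0) = lam.rowLen r := by
      intro r
      split_ifs with h
      · have := Nat.odd_iff.mp ((key r).mp h); omega
      · have h' : ¬ Odd (lam.rowLen r) := fun h'' => h ((key r).mpr h'')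
        rw [Nat.not_odd_iff_even] at h'
        have := Nat.even_iff.mp h'; omega
    rw [key2, key2]
    exact lam.rowLen_anti r (r + 1) (by omega)

/-- the cell of a point -/
def cel {m k : ℕ} (T : Fil m k) : Pt m k → ℕ × ℕ
  | Sum.inl x => (T.row x.1, 2 * T.dom x.1 + x.2.toNat)
  | Sum.inr s => (T.qrow s, 2 * T.ν (T.qrow s))

theorem cel_inj {m k : ℕ} (T : Fil m k) : Function.Injective (cel T) := by
  have hdom : ∀ i, T.dom i < T.ν (T.row i) := fun i => (T.full _ _).mp ⟨i, rfl, rfl⟩
  have hinj : ∀ i i', T.row i = T.row i' → T.dom i = T.dom i' → i = i' := by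
    intro i i' h1 h2
    by_contra hc
    rcases lt_or_gt_of_ne hc with h | h
    · rcases (T.lex _ _).mp h with h3 | ⟨_, h3⟩ <;> omega
    · rcases (T.lex _ _).mp h with h3 | ⟨_, h3⟩ <;> omega
  rintro (⟨i, b⟩ | s) (⟨i', b'⟩ | s') h
  · simp only [cel, Prod.mk.injEq] at h
    have h2 : T.dom i = T.dom i' ∧ b = b' := by
      have := h.2
      cases b <;> cases b' <;> simp at this ⊢ <;> omega
    rw [hinj i i' h.1 h2.1, h2.2]
  · simp only [cel, Prod.mk.injEq] at h
    have h1 := hdom i
    rw [h.1] at h1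
    have := h.2
    cases b <;> simp at this <;> omega
  · simp only [cel, Prod.mk.injEq] at h
    have h1 := hdom i'
    rw [← h.1] at h1
    have := h.2
    cases b' <;> simp at this <;> omega
  · simp only [cel, Prod.mk.injEq] at h
    rw [T.qmono.injective h.1]

theorem image_cel (lam : YoungDiagram) {m k : ℕ} (hD : (DD lam).card = m)
    (hQ : (QQ lam).card = k) :
    (univ : Finset (Pt m k)).image (cel (fil lam hD hQ)) = lam.cells := by
  ext ⟨r, c⟩
  rw [mem_image, YoungDiagram.mem_cells, YoungDiagram.mem_iff_lt_rowLen]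
  have hq : ∀ r, (∃ s, (fil lam hD hQ).qrow s = r) ↔ Odd (lam.rowLen r) := by
    intro r
    rw [← mem_QQ, ← Finset.mem_coe, ← Finset.range_orderEmbOfFin (QQ lam) hQ, Set.mem_range]
    rfl
  constructor
  · rintro ⟨z, -, hz⟩
    rcases z with ⟨i, b⟩ | s
    · simp only [cel, Prod.mk.injEq] at hz
      have h1 : (fil lam hD hQ).dom i < lam.rowLen r / 2 :=
        ((fil lam hD hQ).full _ _).mp ⟨i, hz.1, rfl⟩
      have := hz.2
      cases b <;> simp at this <;> omega
    · simp only [cel, Prod.mk.injEq] at hz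
      have h1 := Nat.odd_iff.mp ((hq r).mp ⟨s, hz.1⟩)
      have h2 : 2 * (lam.rowLen ((fil lam hD hQ).qrow s) / 2) = c := hz.2
      rw [hz.1] at h2
      omega
  · intro h
    by_cases h1 : c / 2 < lam.rowLen r / 2
    · obtain ⟨i, e1, e2⟩ := ((fil lam hD hQ).full r (c / 2)).mpr h1
      rcases Nat.mod_two_eq_zero_or_one c with h2 | h2
      · refine ⟨Sum.inl (i, false), mem_univ _, ?_⟩
        simp only [cel, e1, e2, Bool.toNat_false, Prod.mk.injEq, true_and]
        omega
      · refine ⟨Sum.inl (i, true), mem_univ _, ?_⟩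
        simp only [cel, e1, e2, Bool.toNat_true, Prod.mk.injEq, true_and]
        omega
    · have h2 : Odd (lam.rowLen r) := by
        rw [Nat.odd_iff]; omega
      obtain ⟨s, hs⟩ := (hq r).mpr h2
      refine ⟨Sum.inr s, mem_univ _, ?_⟩
      have e : (fil lam hD hQ).ν r = lam.rowLen r / 2 := rfl
      simp only [cel, hs, e, Prod.mk.injEq, true_and]
      have := Nat.odd_iff.mp h2
      omega

/-- the content of a point -/
def cI {m k : ℕ} (T : Fil m k) : Pt m k → ℤ
  | Sum.inl x => T.x x.1 + x.2.toNat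
  | Sum.inr s => T.y s

theorem cI_eq {m k : ℕ} (T : Fil m k) (z : Pt m k) :
    cI T z = ((cel T z).2 : ℤ) - (cel T z).1 := by
  rcases z with x | s
  · simp only [cI, cel, Fil.x]
    push_cast; ring
  · simp only [cI, cel, Fil.y]
    push_cast; ring

theorem pcont_eq (p : ℕ) [Fact p.Prime] (lam : YoungDiagram) {m k : ℕ} (hD : (DD lam).card = m)
    (hQ : (QQ lam).card = k) (r : ZMod p) :
    pcont p lam r = #{z : Pt m k | ((cI (fil lam hD hQ) z : ℤ) : ZMod p) = r} := by
  unfold pcont
  rw [← image_cel lam hD hQ, Finset.filter_image, Finset.card_image_of_injective _ (cel_inj _)]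
  congr 1
  ext z
  simp only [mem_filter, mem_univ, true_and, cI_eq]
  push_cast
  rfl

theorem oddseq_eq (p : ℕ) [Fact p.Prime] (lam : YoungDiagram) {m k : ℕ} (hD : (DD lam).card = m)
    (hQ : (QQ lam).card = k) (r : ZMod p) :
    oddseq p lam r = #{s : Fin k | (((fil lam hD hQ).y s : ℤ) : ZMod p) = r} := by
  unfold oddseq
  rw [← Finset.filter_filter]
  change #{i ∈ QQ lam | _} = _
  rw [← Finset.image_orderEmbOfFin_univ (QQ lam) hQ, Finset.filter_image,
    Finset.card_image_of_injective _ ((QQ lam).orderEmbOfFin hQ).injective]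
  congr 1
  ext s
  simp only [mem_filter, mem_univ, true_and]
  have h1 : Odd (lam.rowLen ((QQ lam).orderEmbOfFin hQ s)) :=
    mem_QQ.mp (Finset.orderEmbOfFin_mem (QQ lam) hQ s)
  have h2 : (fil lam hD hQ).y s =
      (lam.rowLen ((QQ lam).orderEmbOfFin hQ s) : ℤ) -
        (((QQ lam).orderEmbOfFin hQ s + 1 : ℕ) : ℤ) := by
    show (2 * ((lam.rowLen ((QQ lam).orderEmbOfFin hQ s) / 2 : ℕ) : ℤ)
      - ((QQ lam).orderEmbOfFin hQ s : ℕ)) = _
    have := Nat.odd_iff.mp h1
    push_cast
    omega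
  rw [h2]
  push_cast
  rfl

/-- **YD** -/
theorem t_YD : C_YD := by
  intro p _ F _ _ m k lam hc hk
  have hQ : (QQ lam).card = k := hk
  have hD : (DD lam).card = m := by
    have := card_eq lam
    omega
  refine ⟨fil lam hD hQ, ?_, ?_⟩
  · have h1 : (fun r => pcont p lam r - oddseq p lam r) =
        fun r => #{x : Fin m × Bool | ((cI (fil lam hD hQ) (Sum.inl x) : ℤ) : ZMod p) = r} := by
      funext r
      rw [pcont_eq p lam hD hQ, oddseq_eq p lam hD hQ, card_filter_sum]
      show _ + #{s : Fin k | (((fil lam hD hQ).y s : ℤ) : ZMod p) = r} - _ = _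
      rw [Nat.add_sub_cancel]
    rw [h1, lab_count F p (fun x => cI (fil lam hD hQ) (Sum.inl x)), Fintype.prod_prod_type]
    unfold Fil.e1
    apply Finset.prod_congr rfl
    intro i _
    rw [Fintype.prod_bool, mul_comm]
    simp only [cI, Bool.toNat_true, Bool.toNat_false, Nat.cast_zero, Nat.cast_one, add_zero]
  · have h1 : pcont p lam =
        fun r => #{z : Pt m k | ((cI (fil lam hD hQ) z : ℤ) : ZMod p) = r} := by
      funext r
      rw [pcont_eq p lam hD hQ]
    rw [h1, lab_count F p (cI (fil lam hD hQ)), Fintype.prod_sum_type, Fintype.prod_prod_type]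
    have e1 : (∏ x : Fin m, ∏ y : Bool, (1 + Polynomial.C
          ((cI (fil lam hD hQ) (Sum.inl (x, y)) : ℤ) : F) * Polynomial.X)) =
        (fil lam hD hQ).e1 F := by
      unfold Fil.e1
      apply Finset.prod_congr rfl
      intro i _
      rw [Fintype.prod_bool, mul_comm]
      simp only [cI, Bool.toNat_true, Bool.toNat_false, Nat.cast_zero, Nat.cast_one, add_zero]
    rw [e1]
    rfl

end Pool.Agent.H57.TF
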